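import Pool.Agent.Helper15.KP.Defs
import Pool.Agent.Helper70.KP.K1

set_option autoImplicit false

open MeasureTheory Set Filter Topology
open scoped Pointwise

noncomputable section

namespace Pool.Agent.Helper36.KP

open Pool.Agent.Helper15.KP

/-- The power function composed with an injective linear map tends to infinity at infinity. -/
theorem tendsto_F {k m : ℕ} (L : (Fin (k + 1) → ℝ) →ₗ[ℝ] (Fin m → ℝ))
    (hL : Function.Injective L) (c : Fin m → ℝ) (R : ℝ) :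
    Tendsto (fun w : (Fin (k + 1) → ℝ) × ℝ => F c R (L w.1, w.2)) (cocompact _) atTop := by
  have h1 : Function.Injective (L.prodMap (LinearMap.id : ℝ →ₗ[ℝ] ℝ)) := by
    intro a b hab
    have h2 := congrArg Prod.fst hab
    have h3 := congrArg Prod.snd hab
    simp only [LinearMap.prodMap_apply, LinearMap.id_coe, id_eq] at h2 h3
    exact Prod.ext (hL h2) h3
  obtain ⟨K, hK, hanti⟩ := LinearMap.exists_antilipschitzWith _ (LinearMap.ker_eq_bot.2 h1)
  have h4 : Tendsto (fun w : (Fin (k + 1) → ℝ) × ℝ => (L w.1, w.2)) (cocompact _)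
      (Bornology.cobounded _) := by
    rw [← Metric.cobounded_eq_cocompact]
    exact hanti.tendsto_cobounded
  have h5 : Tendsto (fun w : (Fin (k + 1) → ℝ) × ℝ => ‖(L w.1, w.2) - (c, (0 : ℝ))‖)
      (cocompact _) atTop :=
    tendsto_norm_cobounded_atTop.comp ((tendsto_sub_const_cobounded (c, (0 : ℝ))).comp h4)
  have h6 : Tendsto (fun w : (Fin (k + 1) → ℝ) × ℝ => ‖(L w.1, w.2) - (c, (0 : ℝ))‖ ^ 2 - R)
      (cocompact _) atTop :=
    tendsto_atTop_add_const_right _ (-R) ((tendsto_pow_atTop two_ne_zero).comp h5)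
  refine tendsto_atTop_mono (fun w => ?_) h6
  have h7 : ‖(L w.1, w.2) - (c, (0 : ℝ))‖ ^ 2 ≤ ∑ l, (L w.1 l - c l) ^ 2 + w.2 ^ 2 := by
    have hs : 0 ≤ ∑ l, (L w.1 l - c l) ^ 2 := Finset.sum_nonneg fun l _ => sq_nonneg _
    have h8 : ‖(L w.1, w.2) - (c, (0 : ℝ))‖ ≤ Real.sqrt (∑ l, (L w.1 l - c l) ^ 2 + w.2 ^ 2) := by
      rw [Prod.norm_def]
      refine max_le ?_ ?_
      · refine (pi_norm_le_iff_of_nonneg (Real.sqrt_nonneg _)).2 fun l => ?_
        rw [Real.norm_eq_abs]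
        refine Real.abs_le_sqrt ?_
        have h9 : (L w.1 l - c l) ^ 2 ≤ ∑ l, (L w.1 l - c l) ^ 2 :=
          Finset.single_le_sum (f := fun l => (L w.1 l - c l) ^ 2)
            (fun l _ => sq_nonneg _) (Finset.mem_univ l)
        simp only [Prod.fst_sub, Pi.sub_apply]
        nlinarith [sq_nonneg w.2]
      · rw [Real.norm_eq_abs]
        refine Real.abs_le_sqrt ?_
        simp only [Prod.snd_sub, sub_zero]
        linarith
    calc ‖(L w.1, w.2) - (c, (0 : ℝ))‖ ^ 2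
        ≤ Real.sqrt (∑ l, (L w.1 l - c l) ^ 2 + w.2 ^ 2) ^ 2 :=
          pow_le_pow_left₀ (norm_nonneg _) h8 2
      _ = _ := Real.sq_sqrt (by positivity)
  simp only [F]
  linarith

theorem continuous_F {k m : ℕ} (L : (Fin (k + 1) → ℝ) →ₗ[ℝ] (Fin m → ℝ))
    (c : Fin m → ℝ) (R : ℝ) :
    Continuous (fun w : (Fin (k + 1) → ℝ) × ℝ => F c R (L w.1, w.2)) := by
  have hLc : Continuous L := LinearMap.continuous_of_finiteDimensional L
  simp only [F]
  fun_prop

/-- Composition of a compactly supported function with the power function is compactly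
supported. -/
theorem compactSupport_comp {k m : ℕ} (g : ℝ → ℝ) (hg : HasCompactSupport g)
    (L : (Fin (k + 1) → ℝ) →ₗ[ℝ] (Fin m → ℝ))
    (hL : Function.Injective L) (c : Fin m → ℝ) (R : ℝ) :
    HasCompactSupport (fun w : (Fin (k + 1) → ℝ) × ℝ => g (F c R (L w.1, w.2))) := by
  rw [hasCompactSupport_iff_eventuallyEq] at hg ⊢
  have h1 : Tendsto (fun w : (Fin (k + 1) → ℝ) × ℝ => F c R (L w.1, w.2)) (coclosedCompact _)
      (coclosedCompact ℝ) := by
    rw [coclosedCompact_eq_cocompact, coclosedCompact_eq_cocompact]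
    exact (tendsto_F L hL c R).mono_right atTop_le_cocompact
  exact h1.eventually hg

/-- The coordinates. -/
def E (k : ℕ) : ((ℝ × ℝ) × (Fin k → ℝ)) ≃ᵐ ((Fin (k + 1) → ℝ) × ℝ) :=
  ((MeasurableEquiv.prodAssoc.trans
    ((MeasurableEquiv.refl ℝ).prodCongr MeasurableEquiv.prodComm)).trans
      MeasurableEquiv.prodAssoc.symm).trans
    ((MeasurableEquiv.piFinSuccAbove (fun _ : Fin (k + 1) => ℝ) 0).symm.prodCongr
      (MeasurableEquiv.refl ℝ))

theorem E_apply (k : ℕ) (z : (ℝ × ℝ) × (Fin k → ℝ)) :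
    E k z = ((Fin.cons z.1.1 z.2 : Fin (k + 1) → ℝ), z.1.2) := by
  refine Prod.ext ?_ rfl
  change Fin.insertNth (α := fun _ : Fin (k + 1) => ℝ) 0 z.1.1 z.2 = _
  rw [Fin.insertNth_zero']

theorem E_mp (k : ℕ) : MeasurePreserving (E k) volume volume := by
  have h1 : MeasurePreserving (MeasurableEquiv.prodAssoc : (ℝ × ℝ) × (Fin k → ℝ) ≃ᵐ _)
      volume volume := volume_preserving_prodAssoc
  have h2 : MeasurePreserving ((MeasurableEquiv.refl ℝ).prodCongr
      (MeasurableEquiv.prodComm : ℝ × (Fin k → ℝ) ≃ᵐ _)) volume volume :=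
    (MeasurePreserving.id volume).prod Measure.measurePreserving_swap
  have h3 : MeasurePreserving (MeasurableEquiv.prodAssoc : (ℝ × (Fin k → ℝ)) × ℝ ≃ᵐ _).symm
      volume volume := MeasurePreserving.symm _ volume_preserving_prodAssoc
  have h4 : MeasurePreserving ((MeasurableEquiv.piFinSuccAbove (fun _ : Fin (k + 1) => ℝ)
      0).symm.prodCongr (MeasurableEquiv.refl ℝ)) volume volume :=
    (MeasurePreserving.symm _ (volume_preserving_piFinSuccAbove (fun _ : Fin (k + 1) => ℝ) 0)).prod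
      (MeasurePreserving.id volume)
  exact h4.comp (h3.comp (h2.comp h1))

/-- Decomposition of the orthant integral. -/
theorem orthant_eq {k : ℕ} (G : (Fin (k + 1) → ℝ) × ℝ → ℝ) :
    ∫ w in {w : (Fin (k + 1) → ℝ) × ℝ | ∀ a, 0 ≤ w.1 a}, G w =
    ∫ z, G (Fin.cons z.1.1 z.2, z.1.2)
      ∂(((volume.restrict (Ioi (0 : ℝ))).prod (volume : Measure ℝ)).prod
        (volume.restrict {σ : Fin k → ℝ | ∀ a, 0 ≤ σ a})) := by
  rw [← (E_mp k).setIntegral_preimage_emb (E k).measurableEmbedding]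
  have h1 : (E k) ⁻¹' {w : (Fin (k + 1) → ℝ) × ℝ | ∀ a, 0 ≤ w.1 a} =
      (Ici (0 : ℝ) ×ˢ (univ : Set ℝ)) ×ˢ {σ : Fin k → ℝ | ∀ a, 0 ≤ σ a} := by
    ext z
    simp only [mem_preimage, E_apply, mem_ofPred_eq, mem_prod, mem_Ici, mem_univ, and_true,
      Fin.forall_fin_succ, Fin.cons_zero, Fin.cons_succ]
  rw [h1]
  have h2 : (volume : Measure ((ℝ × ℝ) × (Fin k → ℝ))).restrict
      ((Ici (0 : ℝ) ×ˢ (univ : Set ℝ)) ×ˢ {σ : Fin k → ℝ | ∀ a, 0 ≤ σ a}) =
      (((volume.restrict (Ioi (0 : ℝ))).prod (volume : Measure ℝ)).prod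
        (volume.restrict {σ : Fin k → ℝ | ∀ a, 0 ≤ σ a})) := by
    rw [Measure.volume_eq_prod, ← Measure.prod_restrict, Measure.volume_eq_prod,
      ← Measure.prod_restrict, Measure.restrict_univ, restrict_Ioi_eq_restrict_Ici]
  rw [h2]
  simp only [E_apply]

/-- Scaling in the orthant. -/
theorem orthant_scale {k : ℕ} (g : (Fin k → ℝ) → ℝ) {r : ℝ} (hr : 0 < r) :
    ∫ σ in {σ : Fin k → ℝ | ∀ a, 0 ≤ σ a}, r ^ k * g (r • σ) =
    ∫ σ in {σ : Fin k → ℝ | ∀ a, 0 ≤ σ a}, g σ := by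
  rw [integral_const_mul, Measure.setIntegral_comp_smul_of_pos _ _ _ hr]
  have h1 : r • {σ : Fin k → ℝ | ∀ a, 0 ≤ σ a} = {σ : Fin k → ℝ | ∀ a, 0 ≤ σ a} := by
    ext σ
    rw [mem_smul_set_iff_inv_smul_mem₀ hr.ne']
    simp only [mem_ofPred_eq, Pi.smul_apply, smul_eq_mul]
    refine forall_congr' fun a => ?_
    exact mul_nonneg_iff_of_pos_left (inv_pos.2 hr)
  rw [h1, Module.finrank_fin_fun, smul_eq_mul, ← mul_assoc, mul_inv_cancel₀ (by positivity),
    one_mul]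

theorem orthant_meas (k : ℕ) : MeasurableSet {σ : Fin k → ℝ | ∀ a, 0 ≤ σ a} := by
  have : {σ : Fin k → ℝ | ∀ a, 0 ≤ σ a} = Ici 0 := by
    ext σ
    simp [Pi.le_def]
  rw [this]
  exact measurableSet_Ici

/-- Polar type decomposition. -/
theorem orthant_polar {k : ℕ} (G : (Fin (k + 1) → ℝ) × ℝ → ℝ) (hG : Continuous G)
    (hs : HasCompactSupport G) :
    ∫ w in {w : (Fin (k + 1) → ℝ) × ℝ | ∀ a, 0 ≤ w.1 a}, G w =
    ∫ σ in {σ : Fin k → ℝ | ∀ a, 0 ≤ σ a}, ∫ p in (Ioi (0 : ℝ)) ×ˢ (univ : Set ℝ),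
      p.1 ^ k * G (p.1 • (Fin.cons 1 σ), p.2) := by
  set O : Set (Fin k → ℝ) := {σ : Fin k → ℝ | ∀ a, 0 ≤ σ a} with hO
  set μp : Measure (ℝ × ℝ) := (volume.restrict (Ioi (0 : ℝ))).prod (volume : Measure ℝ) with hμp
  have hμp' : (volume : Measure (ℝ × ℝ)).restrict ((Ioi (0 : ℝ)) ×ˢ (univ : Set ℝ)) = μp := by
    rw [Measure.volume_eq_prod, ← Measure.prod_restrict, Measure.restrict_univ]
  have hpos : ∀ᵐ p ∂μp, 0 < p.1 := by
    rw [← hμp']
    refine (ae_restrict_iff' (measurableSet_Ioi.prod MeasurableSet.univ)).2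
      (Eventually.of_forall fun p hp => hp.1)
  set g : (ℝ × ℝ) × (Fin k → ℝ) → ℝ := fun z => G (Fin.cons z.1.1 z.2, z.1.2) with hg
  set f : (ℝ × ℝ) × (Fin k → ℝ) → ℝ :=
    fun z => z.1.1 ^ k * G (z.1.1 • (Fin.cons 1 z.2), z.1.2) with hf
  have hfc : Continuous f := by
    have h1 : Continuous fun z : (ℝ × ℝ) × (Fin k → ℝ) =>
        (z.1.1 • (Fin.cons 1 z.2 : Fin (k + 1) → ℝ), z.1.2) := by
      refine Continuous.prodMk ?_ (by fun_prop)
      refine Continuous.smul (continuous_fst.comp continuous_fst) ?_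
      refine continuous_pi fun a => ?_
      refine Fin.cases ?_ (fun i => ?_) a
      · simp only [Fin.cons_zero]
        exact continuous_const
      · simp only [Fin.cons_succ]
        exact (continuous_apply i).comp continuous_snd
    exact ((continuous_fst.comp continuous_fst).pow k).mul (hG.comp h1)
  have hgi : Integrable g (μp.prod (volume.restrict O)) := by
    have h1 : Integrable (fun z => G (E k z)) (volume : Measure ((ℝ × ℝ) × (Fin k → ℝ))) :=
      (E_mp k).integrable_comp_of_integrable (hG.integrable_of_hasCompactSupport hs)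
    have h2 : μp.prod (volume.restrict O) =
        (volume : Measure ((ℝ × ℝ) × (Fin k → ℝ))).restrict (((Ioi (0 : ℝ)) ×ˢ (univ : Set ℝ)) ×ˢ O) := by
      rw [← hμp', Measure.prod_restrict]
      rfl
    rw [h2]
    simp only [E_apply] at h1
    exact h1.integrableOn
  have hcons : ∀ (r : ℝ) (σ : Fin k → ℝ),
      r • (Fin.cons 1 σ : Fin (k + 1) → ℝ) = Fin.cons r (r • σ) := by
    intro r σ
    funext a
    refine Fin.cases ?_ (fun i => ?_) a
    · simp
    · simp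
  have key : ∀ (p : ℝ × ℝ) (σ : Fin k → ℝ), f (p, σ) = p.1 ^ k * g (p, p.1 • σ) := by
    intro p σ
    simp only [hf, hg, hcons]
  have hfi : Integrable f (μp.prod (volume.restrict O)) := by
    refine (integrable_prod_iff hfc.aestronglyMeasurable).2 ⟨?_, ?_⟩
    · filter_upwards [hpos, hgi.prod_right_ae] with p hp hgp
      have h1 : Integrable (O.indicator fun σ => g (p, σ)) volume :=
        (integrable_indicator_iff (orthant_meas k)).2 hgp
      have h2 : Integrable (fun σ : Fin k → ℝ => O.indicator (fun σ => g (p, σ)) (p.1 • σ))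
          volume := (integrable_comp_smul_iff volume _ hp.ne').2 h1
      have h3 : (fun σ : Fin k → ℝ => O.indicator (fun σ => g (p, σ)) (p.1 • σ)) =
          O.indicator fun σ => g (p, p.1 • σ) := by
        funext σ
        have h4 : p.1 • σ ∈ O ↔ σ ∈ O := by
          simp only [hO, mem_ofPred_eq, Pi.smul_apply, smul_eq_mul]
          exact forall_congr' fun a => mul_nonneg_iff_of_pos_left hp
        by_cases h5 : σ ∈ O
        · rw [indicator_of_mem h5, indicator_of_mem (h4.2 h5)]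
        · rw [indicator_of_notMem h5, indicator_of_notMem (fun h => h5 (h4.1 h))]
      rw [h3] at h2
      have h6 : Integrable (fun σ => g (p, p.1 • σ)) (volume.restrict O) :=
        (integrable_indicator_iff (orthant_meas k)).1 h2
      have h7 := h6.const_mul (p.1 ^ k)
      simpa only [key] using h7
    · refine (hgi.norm.integral_prod_left).congr ?_
      filter_upwards [hpos] with p hp
      have h1 := orthant_scale (fun σ => ‖g (p, σ)‖) hp
      simp only [key, norm_mul, norm_pow, Real.norm_eq_abs, abs_of_pos hp] at h1 ⊢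
      exact h1.symm
  calc ∫ w in {w : (Fin (k + 1) → ℝ) × ℝ | ∀ a, 0 ≤ w.1 a}, G w
      = ∫ z, g z ∂(μp.prod (volume.restrict O)) := orthant_eq G
    _ = ∫ p, (∫ σ in O, g (p, σ)) ∂μp := integral_prod _ hgi
    _ = ∫ p, (∫ σ in O, f (p, σ)) ∂μp := by
        refine integral_congr_ae ?_
        filter_upwards [hpos] with p hp
        have h1 := orthant_scale (fun σ => g (p, σ)) hp
        simp only [key]
        exact h1.symm
    _ = ∫ z, f z ∂(μp.prod (volume.restrict O)) := (integral_prod _ hfi).symm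
    _ = ∫ σ in O, (∫ p, f (p, σ) ∂μp) := integral_prod_symm _ hfi
    _ = _ := by
        rw [← hμp']

/-- The statement of the module, with the planar inequality as a hypothesis. -/
theorem wall_nonneg_of
    (pos2 : ∀ (κ : ℝ → ℝ), ContDiff ℝ 2 κ → HasCompactSupport κ → (∀ s, 0 ≤ κ s) →
      ∀ k : ℕ, 2 ≤ k → ∀ α β P : ℝ, 0 < α →
        0 ≤ ∫ p in (Ioi (0 : ℝ)) ×ˢ (univ : Set ℝ),
          p.1 ^ k * (- deriv κ (α * p.1 ^ 2 - 2 * β * p.1 + P + p.2 ^ 2)))
    (κ : ℝ → ℝ) (hκ : ContDiff ℝ 2 κ) (hc : HasCompactSupport κ)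
    (h0 : ∀ s, 0 ≤ κ s) {k m : ℕ} (hk : 2 ≤ k)
    (L : (Fin (k + 1) → ℝ) →ₗ[ℝ] (Fin m → ℝ)) (hL : Function.Injective L)
    (c : Fin m → ℝ) (R : ℝ) :
    0 ≤ ∫ w in {w : (Fin (k + 1) → ℝ) × ℝ | ∀ a, 0 ≤ w.1 a},
      - deriv κ (F c R (L w.1, w.2)) := by
  have hd : Continuous (deriv κ) := hκ.continuous_deriv (by norm_num)
  rw [orthant_polar (fun w => - deriv κ (F c R (L w.1, w.2)))
    ((hd.comp (continuous_F L c R)).neg) (compactSupport_comp (fun s => - deriv κ s)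
      hc.deriv.neg L hL c R)]
  refine integral_nonneg fun σ => ?_
  have hα : 0 < ∑ l, (L (Fin.cons 1 σ)) l ^ 2 := by
    have h1 : L (Fin.cons 1 σ) ≠ 0 := by
      intro h
      have h2 : (Fin.cons 1 σ : Fin (k + 1) → ℝ) = 0 := hL (by rw [h, map_zero])
      have h3 := congrFun h2 0
      simp at h3
    obtain ⟨l, hl⟩ := Function.ne_iff.1 h1
    refine Finset.sum_pos' (fun i _ => sq_nonneg _) ⟨l, Finset.mem_univ l, ?_⟩
    exact lt_of_le_of_ne (sq_nonneg _) (pow_ne_zero 2 hl).symm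
  have h1 := pos2 κ hκ hc h0 k hk (∑ l, (L (Fin.cons 1 σ)) l ^ 2)
    (∑ l, (L (Fin.cons 1 σ)) l * c l) (∑ l, c l ^ 2 - R) hα
  have h2 : ∀ p : ℝ × ℝ, F c R (L (p.1 • (Fin.cons 1 σ : Fin (k + 1) → ℝ)), p.2) =
      (∑ l, (L (Fin.cons 1 σ)) l ^ 2) * p.1 ^ 2 - 2 * (∑ l, (L (Fin.cons 1 σ)) l * c l) * p.1 +
        (∑ l, c l ^ 2 - R) + p.2 ^ 2 := by
    intro p
    simp only [F, map_smul, Pi.smul_apply, smul_eq_mul]
    have h3 : ∀ l, (p.1 * L (Fin.cons 1 σ) l - c l) ^ 2 = p.1 ^ 2 * (L (Fin.cons 1 σ)) l ^ 2 -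
        2 * p.1 * ((L (Fin.cons 1 σ)) l * c l) + c l ^ 2 := fun l => by ring
    simp only [h3, Finset.sum_add_distrib, Finset.sum_sub_distrib, ← Finset.mul_sum]
    ring
  simp only [h2]
  exact h1

/-- KP-2. -/
theorem wall_nonneg (κ : ℝ → ℝ) (hκ : ContDiff ℝ 2 κ) (hc : HasCompactSupport κ)
    (h0 : ∀ s, 0 ≤ κ s) {k m : ℕ} (hk : 2 ≤ k)
    (L : (Fin (k + 1) → ℝ) →ₗ[ℝ] (Fin m → ℝ)) (hL : Function.Injective L)
    (c : Fin m → ℝ) (R : ℝ) :
    0 ≤ ∫ w in {w : (Fin (k + 1) → ℝ) × ℝ | ∀ a, 0 ≤ w.1 a},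
      - deriv κ (F c R (L w.1, w.2)) :=
  wall_nonneg_of (fun κ h1 h2 h3 k hk α β P hα =>
    Pool.Agent.Helper70.KP1.pos2 κ h1 h2 h3 k hk α β P hα) κ hκ hc h0 hk L hL c R

end Pool.Agent.Helper36.KP
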